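import Mathlib

/-!
# MP_5725d1_gt, Q1: Doyle's question on locally univalent hexagonal circle packings

The vertex `v_{n,m}` of the hexagonal complex `H` is the pair `(n, m)` of integers; it corresponds to
the lattice point `n + m ω`, `ω = exp (iπ/3)`. The six neighbours of `v` are `v + dir j`, `j` modulo
six, where `dir j` corresponds to `ω ^ j`, and the six faces at `v` are the positively oriented
triangles `v, v + dir j, v + dir (j + 1)`.

**Theorem.** Every locally univalent circle packing for `H` in `ℂ` has a label `R (n, m) = c a ^ n b ^ m`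
with `a, b, c > 0`: it is a regular hexagonal packing or a Doyle spiral. So the answer to Q1 is no.

Proof.
* (Ring Lemma, `ring_lemma`, `petal_bound`.) If the circles of a flower have disjoint interiors then
  the ratio of the radii of the central circle and of a petal is bounded by an absolute constant. (If
  the petals `i, …, i + l - 1` are small then one of the petals `i - 1`, `i + l` is small, since these
  two do not overlap.)
* Let `u = log R` and let `u'` be a translate of `u` by a neighbour of the origin. So `φ = u' - u` is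
  bounded. The derivative of the angle sum at `v` with respect to `u (w)`, for a neighbour `w` of `v`,
  is positive, symmetric in `v, w`, and bounded from above and below along the segment from `u` to
  `u'` (`hasDerivAt_angle`, `rho_div_le`, `le_rho_div`). All angle sums of `u` and `u'` are `2π`.
  Hence (Rolle's theorem) for each finitely supported `ψ` there are symmetric conductances `c`, in a
  fixed compact subset of `(0, ∞)`, with `∑ c (v, w) (ψ w - ψ v) (φ w - φ v) = 0` (`translate`).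
* With `ψ = η ^ 2 φ` and logarithmic cutoff functions `η` of small energy it follows that `φ` is
  constant (`caccioppoli`, `cut_energy`, `liouville`). So `u` is an affine function.
The last two steps show more generally that each packing label for which the ratios of the radii of
adjacent circles are bounded is of the form `c a ^ n b ^ m` (`of_bounded`).
-/

set_option autoImplicit false

open Metric

namespace Pool.Agent.Results.MP_5725d1_gt.DoyleQuestion

/-- The neighbours of the origin in the hexagonal lattice, in their cyclic order: `dir j` is the pair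
`(n, m)` with `n + m ω = ω ^ j`, `ω = exp (iπ/3)`, for `j` modulo six. -/
def dir : ZMod 6 → ℤ × ℤ :=
  (![(1, 0), (0, 1), (-1, 1), (-1, 0), (0, -1), (1, -1)] : Fin 6 → ℤ × ℤ)

/-- The angle at the centre of the circle of radius `r` in the triangle of the centres of three
mutually tangent circles of radii `r, s, t`: the angle opposite to the side `s + t` in the Euclidean
triangle with side lengths `r + s`, `r + t`, `s + t`. -/
noncomputable def angle (r s t : ℝ) : ℝ :=
  Real.arccos (((r + s) ^ 2 + (r + t) ^ 2 - (s + t) ^ 2) / (2 * (r + s) * (r + t)))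

/-- The angle sum `θ_R (v)`, the sum of the angles at `v` over the six faces at `v`. -/
noncomputable def angleSum (R : ℤ × ℤ → ℝ) (v : ℤ × ℤ) : ℝ :=
  ∑ j : ZMod 6, angle (R v) (R (v + dir j)) (R (v + dir (j + 1)))

/-- `R` is a packing label for `H`: the radii are positive and all angle sums are `2π`. -/
structure IsPackingLabel (R : ℤ × ℤ → ℝ) : Prop where
  pos : ∀ v, 0 < R v
  angleSum_eq : ∀ v, angleSum R v = 2 * Real.pi

/-- The circles with centres `z v` and radii `R v` are a circle packing for `H`: `R` is a packing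
label, circles of adjacent vertices are externally tangent, and the centres of the circles of each
face are a positively oriented triple. -/
structure IsCirclePacking (R : ℤ × ℤ → ℝ) (z : ℤ × ℤ → ℂ) : Prop where
  label : IsPackingLabel R
  tangent : ∀ v j, dist (z v) (z (v + dir j)) = R v + R (v + dir j)
  oriented : ∀ v j,
    0 < ((z (v + dir (j + 1)) - z v) * (starRingEnd ℂ) (z (v + dir j) - z v)).im

/-- The vertices of the flower at `v`: the vertex `v` and its six neighbours. -/
def flower (v : ℤ × ℤ) : Set (ℤ × ℤ) := insert v (Set.range fun j => v + dir j)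

/-- The circle packing is locally univalent: for each `v` the seven circles of the flower at `v` have
pairwise disjoint interiors. -/
def LocallyUnivalent (R : ℤ × ℤ → ℝ) (z : ℤ × ℤ → ℂ) : Prop :=
  ∀ v, (flower v).PairwiseDisjoint fun w => ball (z w) (R w)

/-! ### Angles -/

/-- `cos` of the angle -/
noncomputable def cosv (r s t : ℝ) : ℝ :=
  ((r + s) ^ 2 + (r + t) ^ 2 - (s + t) ^ 2) / (2 * (r + s) * (r + t))

lemma one_sub_cosv {r s t : ℝ} (hr : 0 < r) (hs : 0 < s) (ht : 0 < t) :
    1 - cosv r s t = 2 * (s / (r + s) * (t / (r + t))) := by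
  unfold cosv
  have h1 : r + s ≠ 0 := by positivity
  have h2 : r + t ≠ 0 := by positivity
  field_simp
  ring

lemma cosv_mem {r s t : ℝ} (hr : 0 < r) (hs : 0 < s) (ht : 0 < t) :
    -1 < cosv r s t ∧ cosv r s t < 1 := by
  have h := one_sub_cosv hr hs ht
  have h1 : 0 < s / (r + s) * (t / (r + t)) := by positivity
  have h2 : s / (r + s) < 1 := by rw [div_lt_one (by positivity)]; linarith
  have h3 : t / (r + t) < 1 := by rw [div_lt_one (by positivity)]; linarith
  have h4 : 0 < t / (r + t) := by positivity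
  have h5 : 0 < s / (r + s) := by positivity
  constructor
  · nlinarith
  · linarith

lemma cos_angle {r s t : ℝ} (hr : 0 < r) (hs : 0 < s) (ht : 0 < t) :
    Real.cos (angle r s t) = cosv r s t := by
  obtain ⟨h1, h2⟩ := cosv_mem hr hs ht
  exact Real.cos_arccos h1.le h2.le

lemma sin_half_angle {r s t : ℝ} (hr : 0 < r) (hs : 0 < s) (ht : 0 < t) :
    Real.sin (angle r s t / 2) = √(s / (r + s)) * √(t / (r + t)) := by
  have h0 : 0 ≤ angle r s t := Real.arccos_nonneg _
  have hpi : angle r s t ≤ Real.pi := Real.arccos_le_pi _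
  have h1 : 0 ≤ Real.sin (angle r s t / 2) :=
    Real.sin_nonneg_of_nonneg_of_le_pi (by linarith) (by linarith)
  rw [← Real.sqrt_mul (by positivity), eq_comm, Real.sqrt_eq_iff_mul_self_eq (by positivity) h1]
  have h2 := Real.cos_sq (angle r s t / 2)
  have h3 := Real.sin_sq_add_cos_sq (angle r s t / 2)
  rw [show 2 * (angle r s t / 2) = angle r s t by ring, cos_angle hr hs ht] at h2
  have h4 := one_sub_cosv hr hs ht
  nlinarith

/-- polar form of the product -/
lemma polar {r s t : ℝ} (hr : 0 < r) (hs : 0 < s) (ht : 0 < t) {p q : ℂ} (hp : ‖p‖ = r + s)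
    (hq : ‖q‖ = r + t) (hpq : ‖q - p‖ = s + t) (ho : 0 < (q * (starRingEnd ℂ) p).im) :
    q * (starRingEnd ℂ) p =
      ((r + s) * (r + t) : ℝ) * Complex.exp (angle r s t * Complex.I) := by
  have hp2 : p.re * p.re + p.im * p.im = (r + s) ^ 2 := by
    rw [← hp, ← Complex.normSq_apply, Complex.normSq_eq_norm_sq]
  have hq2 : q.re * q.re + q.im * q.im = (r + t) ^ 2 := by
    rw [← hq, ← Complex.normSq_apply, Complex.normSq_eq_norm_sq]
  have hpq2 : (q.re - p.re) * (q.re - p.re) + (q.im - p.im) * (q.im - p.im) = (s + t) ^ 2 := by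
    rw [← hpq, ← Complex.sub_re, ← Complex.sub_im, ← Complex.normSq_apply,
      Complex.normSq_eq_norm_sq]
  have hre : (q * (starRingEnd ℂ) p).re = (r + s) * (r + t) * cosv r s t := by
    unfold cosv
    have h1 : r + s ≠ 0 := by positivity
    have h2 : r + t ≠ 0 := by positivity
    rw [Complex.mul_re, Complex.conj_re, Complex.conj_im]
    field_simp
    nlinarith
  have hnn : (q * (starRingEnd ℂ) p).re ^ 2 + (q * (starRingEnd ℂ) p).im ^ 2 =
      ((r + s) * (r + t)) ^ 2 := by
    rw [Complex.mul_re, Complex.mul_im, Complex.conj_re, Complex.conj_im, mul_pow, ← hp2, ← hq2]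
    ring
  have hsin0 : 0 ≤ Real.sin (angle r s t) :=
    Real.sin_nonneg_of_nonneg_of_le_pi (Real.arccos_nonneg _) (Real.arccos_le_pi _)
  have hss := Real.sin_sq_add_cos_sq (angle r s t)
  rw [cos_angle hr hs ht] at hss
  have him : (q * (starRingEnd ℂ) p).im = (r + s) * (r + t) * Real.sin (angle r s t) := by
    have h5 : 0 ≤ (r + s) * (r + t) * Real.sin (angle r s t) := by positivity
    refine (sq_eq_sq₀ ho.le h5).1 ?_
    rw [hre] at hnn
    have : (q * (starRingEnd ℂ) p).im ^ 2 =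
      ((r + s) * (r + t)) ^ 2 * (1 - cosv r s t ^ 2) := by linarith
    rw [this, mul_pow, ← hss]
    ring
  apply Complex.ext
  · rw [hre, Complex.re_ofReal_mul, Complex.exp_ofReal_mul_I_re, cos_angle hr hs ht]
  · rw [him, Complex.im_ofReal_mul, Complex.exp_ofReal_mul_I_im]

lemma dir_add_three : ∀ j, dir (j + 3) = -dir j := by decide

lemma dir_add_two : ∀ j, dir j + dir (j + 2) = dir (j + 1) := by decide

lemma dir_add_four : ∀ j, dir j + dir (j + 4) = dir (j - 1) := by decide

section Ring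

lemma abs_sin_sum_le (s : Finset ℕ) (f : ℕ → ℝ) :
    |Real.sin (∑ m ∈ s, f m)| ≤ ∑ m ∈ s, |Real.sin (f m)| := by
  classical
  induction s using Finset.induction_on with
  | empty => simp
  | insert a s ha ih =>
    rw [Finset.sum_insert ha, Finset.sum_insert ha, Real.sin_add]
    calc |Real.sin (f a) * Real.cos (∑ m ∈ s, f m) + Real.cos (f a) * Real.sin (∑ m ∈ s, f m)|
        ≤ |Real.sin (f a) * Real.cos (∑ m ∈ s, f m)|
          + |Real.cos (f a) * Real.sin (∑ m ∈ s, f m)| := abs_add_le _ _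
      _ ≤ |Real.sin (f a)| + |Real.sin (∑ m ∈ s, f m)| := by
          rw [abs_mul, abs_mul]
          have h1 := Real.abs_cos_le_one (∑ m ∈ s, f m)
          have h2 := Real.abs_cos_le_one (f a)
          nlinarith [abs_nonneg (Real.sin (f a)), abs_nonneg (Real.sin (∑ m ∈ s, f m))]
      _ ≤ _ := by linarith

variable {t β : ZMod 6 → ℝ}

lemma grow (ht0 : ∀ j, 0 < t j) (ht1 : ∀ j, t j ≤ 1)
    (hs : ∀ j, Real.sin (β j) = t j * t (j + 1))
    (hno : ∀ (i : ZMod 6) (l : ℕ), 1 ≤ l → l ≤ 5 →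
      t i * t (i + l) ≤ Real.sin (∑ m ∈ Finset.range l, β (i + m)))
    {l : ℕ} (hl4 : l ≤ 4) {e e' : ℝ} (he : (l + 1) * e ≤ e' ^ 2) (he0 : 0 ≤ e)
    (hee : e ≤ e') (hl : 1 ≤ l)
    (h : ∃ i : ZMod 6, ∀ m < l, t (i + (m : ℕ)) ≤ e) :
    ∃ i : ZMod 6, ∀ m < l + 1, t (i + (m : ℕ)) ≤ e' := by
  obtain ⟨i, hi⟩ := h
  have key : t (i - 1) * t (i + l) ≤ (l + 1) * e := by
    have h1 := hno (i - 1) (l + 1) (by omega) (by omega)
    have h2 : i - 1 + ((l + 1 : ℕ) : ZMod 6) = i + l := by push_cast; ring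
    rw [h2] at h1
    refine h1.trans ((le_abs_self _).trans ((abs_sin_sum_le _ _).trans ?_))
    have h3 : ∀ m ∈ Finset.range (l + 1), |Real.sin (β (i - 1 + (m : ℕ)))| ≤ e := by
      intro m hm
      rw [hs, abs_of_pos (mul_pos (ht0 _) (ht0 _))]
      rcases m with _ | m
      · have h4 : i - 1 + ((0 : ℕ) : ZMod 6) + 1 = i + ((0 : ℕ) : ZMod 6) := by push_cast; ring
        rw [h4]
        have h5 := hi 0 (by omega)
        have h6 := ht1 (i - 1 + ((0 : ℕ) : ZMod 6))
        have h7 := ht0 (i + ((0 : ℕ) : ZMod 6))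
        have h8 := ht0 (i - 1 + ((0 : ℕ) : ZMod 6))
        nlinarith
      · have h4 : i - 1 + ((m + 1 : ℕ) : ZMod 6) = i + (m : ℕ) := by push_cast; ring
        rw [h4]
        have h5 := hi m (by simpa using hm)
        have h6 := ht1 (i + (m : ℕ) + 1)
        have h7 := ht0 (i + (m : ℕ) + 1)
        have h8 := ht0 (i + (m : ℕ))
        nlinarith
    refine (Finset.sum_le_sum h3).trans ?_
    simp
  have he' : 0 ≤ e' := he0.trans hee
  by_cases hc : t (i - 1) ≤ e'
  · refine ⟨i - 1, fun m hm => ?_⟩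
    rcases m with _ | m
    · simpa using hc
    · have h4 : i - 1 + ((m + 1 : ℕ) : ZMod 6) = i + (m : ℕ) := by push_cast; ring
      rw [h4]
      exact (hi m (by omega)).trans hee
  · refine ⟨i, fun m hm => ?_⟩
    rcases Nat.lt_succ_iff_lt_or_eq.1 hm with hm | rfl
    · exact (hi m hm).trans hee
    · by_contra hc2
      push Not at hc hc2
      have : e' ^ 2 < t (i - 1) * t (i + (m : ℕ)) := by nlinarith
      linarith

/-- The Ring Lemma, for six petals. -/
lemma ring_lemma (ht0 : ∀ j, 0 < t j) (ht1 : ∀ j, t j ≤ 1)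
    (hβ0 : ∀ j, 0 ≤ β j) (hβ1 : ∀ j, β j ≤ Real.pi / 2)
    (hs : ∀ j, Real.sin (β j) = t j * t (j + 1)) (hsum : ∑ j, β j = Real.pi)
    (hno : ∀ (i : ZMod 6) (l : ℕ), 1 ≤ l → l ≤ 5 →
      t i * t (i + l) ≤ Real.sin (∑ m ∈ Finset.range l, β (i + m))) (j : ZMod 6) :
    1 / (5 * 10 ^ 19) ≤ t j := by
  by_contra hcon
  push Not at hcon
  have h1 : ∃ i : ZMod 6, ∀ m < 1, t (i + (m : ℕ)) ≤ 1 / (5 * 10 ^ 19) :=
    ⟨j, fun m hm => by
      have : m = 0 := by omega
      subst this
      simpa using hcon.le⟩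
  have h2 := grow ht0 ht1 hs hno (by norm_num) (e' := 1 / (5 * 10 ^ 9)) (by norm_num)
    (by norm_num) (by norm_num) (by norm_num) h1
  have h3 := grow ht0 ht1 hs hno (by norm_num) (e' := 1 / 40000) (by norm_num)
    (by norm_num) (by norm_num) (by norm_num) h2
  have h4 := grow ht0 ht1 hs hno (by norm_num) (e' := 1 / 100) (by norm_num)
    (by norm_num) (by norm_num) (by norm_num) h3
  have h5 := grow ht0 ht1 hs hno (by norm_num) (e' := 3 / 10) (by norm_num)
    (by norm_num) (by norm_num) (by norm_num) h4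
  obtain ⟨i, hi⟩ := h5
  have hp : ∀ k : ZMod 6, t k * t (k + 1) ≤ 3 / 10 := by
    have hcase : ∀ k : ZMod 6, t k ≤ 3 / 10 ∨ t (k + 1) ≤ 3 / 10 := by
      intro k
      have h6 : ∀ i k : ZMod 6, (∃ m < 5, i + ((m : ℕ) : ZMod 6) = k) ∨
          (∃ m < 5, i + ((m : ℕ) : ZMod 6) = k + 1) := by decide
      rcases h6 i k with ⟨m, hm, hk⟩ | ⟨m, hm, hk⟩
      · left; rw [← hk]; exact hi m (by omega)
      · right; rw [← hk]; exact hi m (by omega)
    intro k
    have := ht0 k
    have := ht0 (k + 1)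
    have := ht1 k
    have := ht1 (k + 1)
    rcases hcase k with h | h
    · nlinarith
    · nlinarith
  have hb : ∀ k : ZMod 6, β k ≤ Real.pi / 2 * (3 / 10) := by
    intro k
    have h7 := Real.mul_le_sin (hβ0 k) (hβ1 k)
    rw [hs k] at h7
    have h8 := h7.trans (hp k)
    have hpi := Real.pi_pos
    rw [div_mul_eq_mul_div, div_le_iff₀ hpi] at h8
    linarith
  have h9 : ∑ k : ZMod 6, β k ≤ ∑ k : ZMod 6, Real.pi / 2 * (3 / 10) :=
    Finset.sum_le_sum fun k _ => hb k
  rw [hsum] at h9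
  simp [ZMod.card] at h9
  have hpi := Real.pi_pos
  linarith

end Ring


section Flower

variable {R : ℤ × ℤ → ℝ} {z : ℤ × ℤ → ℂ}

lemma rotate (h : IsCirclePacking R z) (v : ℤ × ℤ) (i : ZMod 6) (l : ℕ) :
    (z (v + dir (i + l)) - z v) / ((R v + R (v + dir (i + l)) : ℝ) : ℂ) =
      (z (v + dir i) - z v) / ((R v + R (v + dir i) : ℝ) : ℂ) *
        Complex.exp ((∑ m ∈ Finset.range l,
          angle (R v) (R (v + dir (i + m))) (R (v + dir (i + m + 1))) : ℝ) * Complex.I) := by
  induction l with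
  | zero => simp
  | succ l ih =>
    have e1 : i + ((l + 1 : ℕ) : ZMod 6) = i + l + 1 := by push_cast; ring
    rw [Finset.sum_range_succ, Complex.ofReal_add (∑ m ∈ Finset.range l, _), add_mul,
      Complex.exp_add, ← mul_assoc, ← ih, e1]
    set j : ZMod 6 := i + l with hj
    have hr := h.label.pos v
    have hs := h.label.pos (v + dir j)
    have ht := h.label.pos (v + dir (j + 1))
    have hp : ‖z (v + dir j) - z v‖ = R v + R (v + dir j) := by
      rw [← dist_eq_norm, dist_comm, h.tangent]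
    have hq : ‖z (v + dir (j + 1)) - z v‖ = R v + R (v + dir (j + 1)) := by
      rw [← dist_eq_norm, dist_comm, h.tangent]
    have hpq : ‖(z (v + dir (j + 1)) - z v) - (z (v + dir j) - z v)‖ =
        R (v + dir j) + R (v + dir (j + 1)) := by
      have h1 := h.tangent (v + dir j) (j + 2)
      rw [add_assoc v, dir_add_two] at h1
      rw [← h1, sub_sub_sub_cancel_right, ← dist_eq_norm, dist_comm]
    have hpol := polar hr hs ht hp hq hpq (h.oriented v j)
    have hn : (z (v + dir j) - z v) * (starRingEnd ℂ) (z (v + dir j) - z v) =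
        ((R v + R (v + dir j) : ℝ) : ℂ) ^ 2 := by
      rw [Complex.mul_conj, Complex.normSq_eq_norm_sq, hp]
      push_cast
      ring
    have ha : ((R v + R (v + dir j) : ℝ) : ℂ) ≠ 0 := by
      rw [Complex.ofReal_ne_zero]; positivity
    have hb : ((R v + R (v + dir (j + 1)) : ℝ) : ℂ) ≠ 0 := by
      rw [Complex.ofReal_ne_zero]; positivity
    have hne : (starRingEnd ℂ) (z (v + dir j) - z v) ≠ 0 := by
      intro h0
      rw [h0, mul_zero] at hn
      exact ha (pow_eq_zero_iff (two_ne_zero) |>.1 hn.symm)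
    have hexp : Complex.exp ((angle (R v) (R (v + dir j)) (R (v + dir (j + 1))) : ℝ) * Complex.I) =
        (z (v + dir (j + 1)) - z v) * (starRingEnd ℂ) (z (v + dir j) - z v) /
          (((R v + R (v + dir j) : ℝ) : ℂ) * ((R v + R (v + dir (j + 1)) : ℝ) : ℂ)) := by
      rw [hpol, eq_div_iff (mul_ne_zero ha hb)]
      push_cast
      ring
    rw [hexp]
    field_simp
    rw [mul_assoc, hn]

lemma sum_range_le (f : ZMod 6 → ℝ) (hf : ∀ j, 0 ≤ f j) (i : ZMod 6) (l : ℕ) (hl : l ≤ 6) :
    ∑ m ∈ Finset.range l, f (i + m) ≤ ∑ j, f j := by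
  have h1 : ∑ m ∈ Finset.range l, f (i + m) = ∑ j ∈ (Finset.range l).image
      (fun m : ℕ => i + (m : ZMod 6)), f j := by
    rw [Finset.sum_image]
    intro a ha b hb hab
    have ha' : a < 6 := by have := Finset.mem_range.1 (Finset.mem_coe.1 ha); omega
    have hb' : b < 6 := by have := Finset.mem_range.1 (Finset.mem_coe.1 hb); omega
    have h2 : (a : ZMod 6) = b := add_left_cancel hab
    rw [ZMod.natCast_eq_natCast_iff'] at h2
    rwa [Nat.mod_eq_of_lt ha', Nat.mod_eq_of_lt hb'] at h2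
  rw [h1]
  exact Finset.sum_le_sum_of_subset_of_nonneg (Finset.subset_univ _) fun j _ _ => hf j

lemma petal_bound (h : IsCirclePacking R z) (hu : LocallyUnivalent R z) (v : ℤ × ℤ) (j : ZMod 6) :
    (1 / (5 * 10 ^ 19)) ^ 2 * R v ≤ R (v + dir j) := by
  have hpos := h.label.pos
  set t : ZMod 6 → ℝ := fun j => √(R (v + dir j) / (R v + R (v + dir j))) with ht
  set β : ZMod 6 → ℝ := fun j => angle (R v) (R (v + dir j)) (R (v + dir (j + 1))) / 2 with hβ
  have ht0 : ∀ j, 0 < t j := fun j => by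
    have := hpos v
    have := hpos (v + dir j)
    simp only [ht]
    positivity
  have ht1 : ∀ j, t j ≤ 1 := fun j => by
    have h1 := hpos v
    have h2 := hpos (v + dir j)
    simp only [ht]
    rw [Real.sqrt_le_one, div_le_one (by positivity)]
    linarith
  have hβ0 : ∀ j, 0 ≤ β j := fun j => div_nonneg (Real.arccos_nonneg _) (by norm_num)
  have hβ1 : ∀ j, β j ≤ Real.pi / 2 := fun j => by
    have : angle (R v) (R (v + dir j)) (R (v + dir (j + 1))) ≤ Real.pi := Real.arccos_le_pi _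
    simp only [hβ]
    linarith
  have hs : ∀ j, Real.sin (β j) = t j * t (j + 1) := fun j =>
    sin_half_angle (hpos v) (hpos _) (hpos _)
  have hsum : ∑ j, β j = Real.pi := by
    have h1 := h.label.angleSum_eq v
    unfold angleSum at h1
    simp only [hβ]
    rw [← Finset.sum_div, h1]
    ring
  have hno : ∀ (i : ZMod 6) (l : ℕ), 1 ≤ l → l ≤ 5 →
      t i * t (i + l) ≤ Real.sin (∑ m ∈ Finset.range l, β (i + m)) := by
    intro i l hl1 hl5
    have hS0 : 0 ≤ ∑ m ∈ Finset.range l, β (i + m) := Finset.sum_nonneg fun m _ => hβ0 _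
    have hS1 : ∑ m ∈ Finset.range l, β (i + m) ≤ Real.pi :=
      (sum_range_le β hβ0 i l (by omega)).trans hsum.le
    have hsin := Real.sin_nonneg_of_nonneg_of_le_pi hS0 hS1
    have h2S : ∑ m ∈ Finset.range l, angle (R v) (R (v + dir (i + m)))
        (R (v + dir (i + m + 1))) = 2 * ∑ m ∈ Finset.range l, β (i + m) := by
      rw [Finset.mul_sum]
      refine Finset.sum_congr rfl fun m _ => ?_
      simp only [hβ]
      ring
    set S := ∑ m ∈ Finset.range l, β (i + m) with hS
    have hrot := rotate h v i l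
    rw [h2S] at hrot
    set a := R v + R (v + dir i) with ha
    set b := R v + R (v + dir (i + l)) with hb
    have ha0 : 0 < a := by have := hpos v; have := hpos (v + dir i); positivity
    have hb0 : 0 < b := by have := hpos v; have := hpos (v + dir (i + l)); positivity
    have hne : v + dir i ≠ v + dir (i + l) := by
      have hdir : ∀ i : ZMod 6, ∀ l < 6, 1 ≤ l → dir i ≠ dir (i + (l : ℕ)) := by decide
      intro h0
      exact hdir i l (by omega) hl1 (add_left_cancel h0)
    have hdisj := hu v (Set.mem_insert_of_mem v (Set.mem_range_self i))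
      (Set.mem_insert_of_mem v (Set.mem_range_self (i + (l : ZMod 6)))) hne
    have hdist : R (v + dir i) + R (v + dir (i + l)) ≤ dist (z (v + dir i)) (z (v + dir (i + l))) :=
      (disjoint_ball_ball_iff (hpos _) (hpos _)).1 hdisj
    have hdist2 : dist (z (v + dir i)) (z (v + dir (i + l))) ^ 2 =
        a ^ 2 + b ^ 2 - 2 * a * b * Real.cos (2 * S) := by
      have hac : ((a : ℝ) : ℂ) ≠ 0 := by rw [Complex.ofReal_ne_zero]; positivity
      have hbc : ((b : ℝ) : ℂ) ≠ 0 := by rw [Complex.ofReal_ne_zero]; positivity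
      have h1 : z (v + dir (i + l)) - z (v + dir i) = (z (v + dir i) - z v) / (a : ℂ) *
          ((b : ℂ) * Complex.exp ((2 * S : ℝ) * Complex.I) - a) := by
        have h2 : z (v + dir (i + l)) - z v = (z (v + dir i) - z v) / (a : ℂ) *
          Complex.exp ((2 * S : ℝ) * Complex.I) * b := by
          rw [← hrot]
          field_simp
        have h3 : z (v + dir i) - z v = (z (v + dir i) - z v) / (a : ℂ) * a := by
          field_simp
        calc z (v + dir (i + l)) - z (v + dir i) = (z (v + dir (i + l)) - z v) -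
              (z (v + dir i) - z v) := by ring
          _ = (z (v + dir i) - z v) / (a : ℂ) *
          Complex.exp ((2 * S : ℝ) * Complex.I) * b - (z (v + dir i) - z v) / (a : ℂ) * a := by
              rw [h2, ← h3]
          _ = _ := by ring
      have h4 : ‖(z (v + dir i) - z v) / (a : ℂ)‖ = 1 := by
        rw [norm_div, ← dist_eq_norm, dist_comm, h.tangent, Complex.norm_real, Real.norm_eq_abs,
          abs_of_pos ha0, ← ha, div_self ha0.ne']
      rw [dist_comm, dist_eq_norm, h1, norm_mul, h4, one_mul, ← Complex.normSq_eq_norm_sq,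
        Complex.normSq_apply]
      rw [Complex.sub_re, Complex.sub_im, Complex.re_ofReal_mul, Complex.im_ofReal_mul,
        Complex.exp_ofReal_mul_I_re, Complex.exp_ofReal_mul_I_im, Complex.ofReal_re,
        Complex.ofReal_im]
      have := Real.sin_sq_add_cos_sq (2 * S)
      nlinarith
    have h5 : (R (v + dir i) + R (v + dir (i + l))) ^ 2 ≤
        a ^ 2 + b ^ 2 - 2 * a * b * Real.cos (2 * S) := by
      rw [← hdist2]
      have := hpos (v + dir i)
      have := hpos (v + dir (i + l))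
      exact pow_le_pow_left₀ (by positivity) hdist 2
    rw [Real.cos_two_mul, Real.cos_sq'] at h5
    have h6 : R (v + dir i) * R (v + dir (i + l)) ≤ a * b * Real.sin S ^ 2 := by
      nlinarith
    have h7 : t i * t (i + l) = √(R (v + dir i) / a * (R (v + dir (i + l)) / b)) := by
      rw [Real.sqrt_mul (by have := hpos (v + dir i); positivity)]
    rw [h7]
    apply Real.sqrt_le_iff.2 ⟨hsin, ?_⟩
    rw [div_mul_div_comm, div_le_iff₀ (by positivity)]
    linarith
  have hfin := ring_lemma ht0 ht1 hβ0 hβ1 hs hsum hno j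
  have h1 := hpos v
  have h2 := hpos (v + dir j)
  have h3 : (1 / (5 * 10 ^ 19) : ℝ) ^ 2 ≤ R (v + dir j) / (R v + R (v + dir j)) := by
    rw [← Real.sq_sqrt (show 0 ≤ R (v + dir j) / (R v + R (v + dir j)) by positivity)]
    exact pow_le_pow_left₀ (by norm_num) hfin 2
  rw [le_div_iff₀ (by positivity)] at h3
  have h4 : (0 : ℝ) ≤ (1 / (5 * 10 ^ 19) : ℝ) ^ 2 * R (v + dir j) := by positivity
  linarith [mul_add ((1 / (5 * 10 ^ 19) : ℝ) ^ 2) (R v) (R (v + dir j))]

end Flower

section Derivative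

/-- the radius of the incircle -/
noncomputable def rho (a b c : ℝ) : ℝ := √(a * b * c / (a + b + c))

lemma rho_swap (a b c : ℝ) : rho a b c = rho b a c := by
  unfold rho; congr 1; ring_nf

lemma rho_swap' (a b c : ℝ) : rho a b c = rho a c b := by
  unfold rho; congr 1; ring_nf

lemma hasDerivAt_angle (x y z p q s t : ℝ) :
    HasDerivAt (fun t : ℝ => angle (Real.exp (x + t * p)) (Real.exp (y + t * q))
      (Real.exp (z + t * s)))
      (rho (Real.exp (x + t * p)) (Real.exp (y + t * q)) (Real.exp (z + t * s)) /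
          (Real.exp (x + t * p) + Real.exp (y + t * q)) * (q - p) +
        rho (Real.exp (x + t * p)) (Real.exp (y + t * q)) (Real.exp (z + t * s)) /
          (Real.exp (x + t * p) + Real.exp (z + t * s)) * (s - p)) t := by
  have hd : ∀ x p : ℝ, HasDerivAt (fun t : ℝ => Real.exp (x + t * p))
      (Real.exp (x + t * p) * p) t := by
    intro x p
    have h1 : HasDerivAt (fun t : ℝ => x + t * p) p t := by
      simpa using ((hasDerivAt_id t).mul_const p).const_add x
    exact h1.exp
  have h1 := hd x p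
  have h2 := hd y q
  have h3 := hd z s
  have hx : 0 < Real.exp (x + t * p) := Real.exp_pos _
  have hy : 0 < Real.exp (y + t * q) := Real.exp_pos _
  have hz : 0 < Real.exp (z + t * s) := Real.exp_pos _
  set a := Real.exp (x + t * p) with ha
  set b := Real.exp (y + t * q) with hb
  set c := Real.exp (z + t * s) with hc
  have hab : a + b ≠ 0 := by positivity
  have hac : a + c ≠ 0 := by positivity
  have hw : HasDerivAt (fun t : ℝ => cosv (Real.exp (x + t * p)) (Real.exp (y + t * q))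
      (Real.exp (z + t * s))) (-(2 * (b / (a + b) * (c / (a + c)) *
        (a / (a + b) * (q - p) + a / (a + c) * (s - p))))) t := by
    have e : (fun t : ℝ => cosv (Real.exp (x + t * p)) (Real.exp (y + t * q))
        (Real.exp (z + t * s))) = fun t : ℝ => 1 - 2 * (Real.exp (y + t * q) /
          (Real.exp (x + t * p) + Real.exp (y + t * q)) * (Real.exp (z + t * s) /
          (Real.exp (x + t * p) + Real.exp (z + t * s)))) := by
      funext t
      have := one_sub_cosv (Real.exp_pos (x + t * p)) (Real.exp_pos (y + t * q))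
        (Real.exp_pos (z + t * s))
      linarith
    rw [e]
    have h4 := ((h2.div (h1.add h2) hab).mul (h3.div (h1.add h3) hac)).const_mul 2
    have h5 := h4.const_sub 1
    refine HasDerivAt.congr_deriv (f := fun t : ℝ => 1 - 2 * (Real.exp (y + t * q) /
          (Real.exp (x + t * p) + Real.exp (y + t * q)) * (Real.exp (z + t * s) /
          (Real.exp (x + t * p) + Real.exp (z + t * s))))) h5 ?_
    simp only [Pi.add_apply, Pi.div_apply, ← ha, ← hb, ← hc]
    field_simp
    ring
  obtain ⟨hm1, hm2⟩ := cosv_mem hx hy hz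
  have harc := (Real.hasDerivAt_arccos hm1.ne' hm2.ne).comp t hw
  refine harc.congr_deriv ?_
  have h6 : √(1 - cosv a b c ^ 2) * rho a b c = 2 * (b / (a + b) * (c / (a + c))) * a := by
    unfold rho
    have h7 : 0 ≤ 1 - cosv a b c ^ 2 := by nlinarith
    rw [← Real.sqrt_mul h7]
    rw [Real.sqrt_eq_iff_mul_self_eq (mul_nonneg h7 (by positivity)) (by positivity)]
    have h8 := one_sub_cosv hx hy hz
    have h9 : 1 - cosv a b c ^ 2 = (1 - cosv a b c) * (2 - (1 - cosv a b c)) := by ring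
    rw [h9, h8]
    field_simp
    ring
  have h10 : 0 < √(1 - cosv a b c ^ 2) := Real.sqrt_pos.2 (by nlinarith)
  have h11 : rho a b c = 2 * (b / (a + b) * (c / (a + c))) * a / √(1 - cosv a b c ^ 2) := by
    rw [eq_div_iff h10.ne', mul_comm]
    exact h6
  rw [h11]
  field_simp

/-- upper bound for the conductances -/
lemma rho_div_le {a b c : ℝ} (ha : 0 < a) (hb : 0 < b) (hc : 0 < c) :
    rho a b c / (a + b) ≤ 1 := by
  rw [div_le_one (by positivity)]
  unfold rho
  apply Real.sqrt_le_iff.2 ⟨by positivity, ?_⟩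
  rw [div_le_iff₀ (by positivity)]
  nlinarith [mul_pos ha hb, mul_pos hb hc, mul_pos ha hc, mul_pos (mul_pos ha hb) hc]

/-- lower bound for the conductances -/
lemma le_rho_div {a b c k : ℝ} (ha : 0 < a) (hb : 0 < b) (hc : 0 < c) (hk : 0 < k)
    (hk1 : k ≤ 1) (h1 : k * a ≤ b) (h2 : k * b ≤ a) (h3 : k * a ≤ c) (h4 : k * c ≤ a) :
    k ^ 3 / 4 ≤ rho a b c / (a + b) := by
  rw [le_div_iff₀ (by positivity)]
  unfold rho
  apply Real.le_sqrt_of_sq_le
  rw [le_div_iff₀ (by positivity)]
  have hb' : b ≤ a / k := by rw [le_div_iff₀ hk]; linarith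
  have hc' : c ≤ a / k := by rw [le_div_iff₀ hk]; linarith
  have ha' : a ≤ a / k := by rw [le_div_iff₀ hk]; nlinarith
  have e1 : k ^ 3 / 4 * (a + b) ≤ k ^ 2 * a / 2 := by
    have : k ^ 3 / 4 * (a + b) ≤ k ^ 3 / 4 * (2 * (a / k)) := by
      apply mul_le_mul_of_nonneg_left _ (by positivity)
      linarith
    refine this.trans (le_of_eq ?_)
    field_simp
    ring
  have e2 : a + b + c ≤ 3 * (a / k) := by linarith
  have e3 : (k ^ 3 / 4 * (a + b)) ^ 2 * (a + b + c) ≤ (k ^ 2 * a / 2) ^ 2 * (3 * (a / k)) := by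
    apply mul_le_mul _ e2 (by positivity) (by positivity)
    exact pow_le_pow_left₀ (by positivity) e1 2
  refine e3.trans ?_
  have e4 : (k ^ 2 * a / 2) ^ 2 * (3 * (a / k)) = 3 / 4 * (k ^ 3 * a ^ 3) := by
    field_simp
    ring
  rw [e4]
  have e5 : k ^ 3 * a ^ 3 ≤ k ^ 2 * a ^ 3 := by
    apply mul_le_mul_of_nonneg_right _ (by positivity)
    exact pow_le_pow_of_le_one hk.le hk1 (by norm_num)
  have e6 : k ^ 2 * a ^ 3 ≤ a * b * c := by
    have : (k * a) * (k * a) ≤ b * c := mul_le_mul h1 h3 (by positivity) hb.le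
    nlinarith
  have e7 : 0 ≤ k ^ 3 * a ^ 3 := by positivity
  linarith

end Derivative
section Energy

/-- The end point of an oriented edge. -/
def tip (x : (ℤ × ℤ) × ZMod 6) : ℤ × ℤ := x.1 + dir x.2

/-- Reversal of an oriented edge. -/
def rev : (ℤ × ℤ) × ZMod 6 ≃ (ℤ × ℤ) × ZMod 6 where
  toFun x := (x.1 + dir x.2, x.2 + 3)
  invFun x := (x.1 + dir x.2, x.2 + 3)
  left_inv x := by
    have h : ∀ j : ZMod 6, j + 3 + 3 = j := by decide
    simp only [dir_add_three, h]
    simp
  right_inv x := by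
    have h : ∀ j : ZMod 6, j + 3 + 3 = j := by decide
    simp only [dir_add_three, h]
    simp

lemma rev_fst (x : (ℤ × ℤ) × ZMod 6) : (rev x).1 = tip x := rfl

lemma tip_rev (x : (ℤ × ℤ) × ZMod 6) : tip (rev x) = x.1 := by
  show x.1 + dir x.2 + dir (x.2 + 3) = x.1
  rw [dir_add_three]
  simp

lemma finite_support_fst {ψ : ℤ × ℤ → ℝ} (hψ : (Function.support ψ).Finite)
    {f : (ℤ × ℤ) × ZMod 6 → ℝ} (hf : ∀ x, ψ x.1 = 0 → f x = 0) :
    (Function.support f).Finite := by
  refine (hψ.prod (Set.finite_univ (α := ZMod 6))).subset fun x hx => ?_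
  refine ⟨fun h0 => hx (hf x h0), Set.mem_univ _⟩

lemma finite_support_edge {ψ : ℤ × ℤ → ℝ} (hψ : (Function.support ψ).Finite)
    {f : (ℤ × ℤ) × ZMod 6 → ℝ} (hf : ∀ x, ψ x.1 = 0 → ψ (tip x) = 0 → f x = 0) :
    (Function.support f).Finite := by
  have h1 : (Function.support fun x : (ℤ × ℤ) × ZMod 6 => ψ x.1).Finite :=
    finite_support_fst hψ fun x hx => hx
  have h2 : (Function.support fun x : (ℤ × ℤ) × ZMod 6 => ψ (tip x)).Finite := by
    have h3 := h1.preimage (f := rev) rev.injective.injOn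
    refine h3.subset fun x hx => ?_
    simpa [rev_fst] using hx
  refine (h1.union h2).subset fun x hx => ?_
  by_contra hcon
  simp only [Set.mem_union, Function.mem_support, not_or, not_not] at hcon
  exact hx (hf x hcon.1 hcon.2)

lemma symmetrize {c : (ℤ × ℤ) × ZMod 6 → ℝ} (hc : ∀ x, c (rev x) = c x) {ψ φ : ℤ × ℤ → ℝ}
    (hψ : (Function.support ψ).Finite)
    (h : ∑' x, c x * ψ x.1 * (φ (tip x) - φ x.1) = 0) :
    ∑' x, c x * (ψ (tip x) - ψ x.1) * (φ (tip x) - φ x.1) = 0 := by
  have h1 : ∑' x, c x * ψ (tip x) * (φ x.1 - φ (tip x)) = 0 := by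
    rw [← h, ← Equiv.tsum_eq rev]
    refine tsum_congr fun x => ?_
    rw [hc, rev_fst, tip_rev]
  have hs1 : Summable fun x => c x * ψ x.1 * (φ (tip x) - φ x.1) :=
    summable_of_hasFiniteSupport (finite_support_fst hψ fun x hx => by rw [hx]; ring)
  have hs2 : Summable fun x => c x * ψ (tip x) * (φ x.1 - φ (tip x)) :=
    summable_of_hasFiniteSupport (finite_support_edge hψ fun x _ hx => by rw [hx]; ring)
  have h2 : ∑' x, c x * (ψ (tip x) - ψ x.1) * (φ (tip x) - φ x.1) =
      -(∑' x, c x * ψ (tip x) * (φ x.1 - φ (tip x)) +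
        ∑' x, c x * ψ x.1 * (φ (tip x) - φ x.1)) := by
    rw [← hs2.tsum_add hs1, ← tsum_neg]
    exact tsum_congr fun x => by ring
  rw [h2, h1, h]
  ring

lemma pointwise {K e f p q : ℝ} (hp : |p| ≤ K) (hq : |q| ≤ K) :
    (e ^ 2 + f ^ 2) * (q - p) ^ 2 / 4 - 2 * K ^ 2 * (f - e) ^ 2 ≤
      (f ^ 2 * q - e ^ 2 * p) * (q - p) := by
  have h1 : (f ^ 2 * q - e ^ 2 * p) * (q - p) =
      (e ^ 2 + f ^ 2) / 2 * (q - p) ^ 2 + (q + p) / 2 * ((f - e) * ((f + e) * (q - p))) := by
    ring
  rw [h1]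
  have hpq : |(q + p) / 2| ≤ K := by
    rw [abs_div, abs_of_pos (by norm_num : (0:ℝ) < 2)]
    have := abs_add_le q p
    linarith
  have hpq2 : ((q + p) / 2) ^ 2 ≤ K ^ 2 := by
    rw [← sq_abs]
    exact pow_le_pow_left₀ (abs_nonneg _) hpq 2
  -- `m * h * g ≥ -(2 m^2 h^2 + g^2 / 8)`
  have h2 : -(2 * (((q + p) / 2) * (f - e)) ^ 2 + ((f + e) * (q - p)) ^ 2 / 8) ≤
      (q + p) / 2 * ((f - e) * ((f + e) * (q - p))) := by
    nlinarith [sq_nonneg (4 * (((q + p) / 2) * (f - e)) + (f + e) * (q - p))]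
  have h3 : ((f + e) * (q - p)) ^ 2 ≤ 2 * (e ^ 2 + f ^ 2) * (q - p) ^ 2 := by
    rw [mul_pow]
    apply mul_le_mul_of_nonneg_right _ (sq_nonneg _)
    nlinarith [sq_nonneg (f - e)]
  have h4 : (((q + p) / 2) * (f - e)) ^ 2 ≤ K ^ 2 * (f - e) ^ 2 := by
    rw [mul_pow]
    exact mul_le_mul_of_nonneg_right hpq2 (sq_nonneg _)
  nlinarith

lemma caccioppoli {c : (ℤ × ℤ) × ZMod 6 → ℝ} (hc : ∀ x, c (rev x) = c x) {c₁ C₁ K : ℝ}
    (hc1 : ∀ x, c₁ ≤ c x) (hC1 : ∀ x, c x ≤ C₁) (hc0 : 0 < c₁) {φ η : ℤ × ℤ → ℝ}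
    (hφ : ∀ v, |φ v| ≤ K) (hfin : (Function.support η).Finite)
    (h : ∑' x, c x * (η x.1 ^ 2 * φ x.1) * (φ (tip x) - φ x.1) = 0)
    (x₀ : (ℤ × ℤ) × ZMod 6) :
    c₁ * (η x₀.1 ^ 2 * (φ (tip x₀) - φ x₀.1) ^ 2) ≤
      8 * K ^ 2 * C₁ * ∑' x : (ℤ × ℤ) × ZMod 6, (η (tip x) - η x.1) ^ 2 := by
  have hψ : (Function.support fun v => η v ^ 2 * φ v).Finite :=
    hfin.subset fun v hv h0 => hv (by
      simp only [h0]
      ring)
  have h1 := symmetrize hc hψ h
  have hK : 0 ≤ K ^ 2 := sq_nonneg K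
  have hs1 : Summable fun x => c x * (η (tip x) ^ 2 * φ (tip x) - η x.1 ^ 2 * φ x.1) *
      (φ (tip x) - φ x.1) :=
    summable_of_hasFiniteSupport (finite_support_edge hfin fun x h1 h2 => by rw [h1, h2]; ring)
  have hs2 : Summable fun x : (ℤ × ℤ) × ZMod 6 => (η (tip x) - η x.1) ^ 2 :=
    summable_of_hasFiniteSupport (finite_support_edge hfin fun x h1 h2 => by rw [h1, h2]; ring)
  have hs3 : Summable fun x : (ℤ × ℤ) × ZMod 6 =>
      (η x.1 ^ 2 + η (tip x) ^ 2) * (φ (tip x) - φ x.1) ^ 2 :=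
    summable_of_hasFiniteSupport (finite_support_edge hfin fun x h1 h2 => by rw [h1, h2]; ring)
  have h2 : ∑' x : (ℤ × ℤ) × ZMod 6, (c₁ / 4 * ((η x.1 ^ 2 + η (tip x) ^ 2) *
        (φ (tip x) - φ x.1) ^ 2) - 2 * K ^ 2 * C₁ * (η (tip x) - η x.1) ^ 2) ≤
      ∑' x, c x * (η (tip x) ^ 2 * φ (tip x) - η x.1 ^ 2 * φ x.1) * (φ (tip x) - φ x.1) := by
    refine ((hs3.mul_left _).sub (hs2.mul_left _)).tsum_le_tsum (fun x => ?_) hs1
    have h3 := pointwise (e := η x.1) (f := η (tip x)) (hφ x.1) (hφ (tip x))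
    have h4 := hc1 x
    have h5 := hC1 x
    have h6 : 0 ≤ (η x.1 ^ 2 + η (tip x) ^ 2) * (φ (tip x) - φ x.1) ^ 2 := by positivity
    have h7 : 0 ≤ K ^ 2 * (η (tip x) - η x.1) ^ 2 := by positivity
    have h8 := mul_le_mul_of_nonneg_left h3 (hc0.le.trans h4)
    nlinarith
  rw [h1, (hs3.mul_left _).tsum_sub (hs2.mul_left _), tsum_mul_left, tsum_mul_left] at h2
  have h9 : η x₀.1 ^ 2 * (φ (tip x₀) - φ x₀.1) ^ 2 ≤ ∑' x : (ℤ × ℤ) × ZMod 6,
      (η x.1 ^ 2 + η (tip x) ^ 2) * (φ (tip x) - φ x.1) ^ 2 := by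
    refine le_trans ?_ (hs3.le_tsum x₀ fun x _ => by positivity)
    nlinarith [sq_nonneg (η (tip x₀) * (φ (tip x₀) - φ x₀.1))]
  nlinarith

end Energy


section Cutoff

/-- The sup norm on the lattice. -/
def nrm (v : ℤ × ℤ) : ℕ := max v.1.natAbs v.2.natAbs

lemma nrm_tip (x : (ℤ × ℤ) × ZMod 6) : nrm (tip x) ≤ nrm x.1 + 1 ∧ nrm x.1 ≤ nrm (tip x) + 1 := by
  have h : ∀ j : ZMod 6, (dir j).1.natAbs ≤ 1 ∧ (dir j).2.natAbs ≤ 1 := by decide
  obtain ⟨h1, h2⟩ := h x.2
  have e1 : (tip x).1 = x.1.1 + (dir x.2).1 := rfl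
  have e2 : (tip x).2 = x.1.2 + (dir x.2).2 := rfl
  unfold nrm
  rw [e1, e2]
  omega

/-- Partial sums of the harmonic series. -/
noncomputable def har (k : ℕ) : ℝ := ∑ i ∈ Finset.range k, 1 / ((i : ℝ) + 1)

lemma har_succ (k : ℕ) : har (k + 1) = har k + 1 / ((k : ℝ) + 1) := Finset.sum_range_succ _ _

lemma har_mono : Monotone har := monotone_nat_of_le_succ fun k => by
  rw [har_succ]
  have : (0 : ℝ) < 1 / ((k : ℝ) + 1) := by positivity
  linarith

lemma har_nonneg (k : ℕ) : 0 ≤ har k := Finset.sum_nonneg fun i _ => by positivity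

lemma har_tendsto : Filter.Tendsto har Filter.atTop Filter.atTop :=
  Real.tendsto_sum_range_one_div_nat_succ_atTop

/-- The logarithmic cutoff function. -/
noncomputable def cut (N : ℕ) (v : ℤ × ℤ) : ℝ := max 0 (1 - har (nrm v) / har N)

lemma cut_eq_zero {N : ℕ} (hN : 0 < har N) {v : ℤ × ℤ} (hv : N ≤ nrm v) : cut N v = 0 := by
  unfold cut
  apply max_eq_left
  have h1 := har_mono hv
  have : 1 ≤ har (nrm v) / har N := by rwa [le_div_iff₀ hN, one_mul]
  linarith

lemma mem_box {N : ℕ} {v : ℤ × ℤ} (hv : nrm v ≤ N) :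
    v ∈ Finset.Icc (-(N : ℤ)) N ×ˢ Finset.Icc (-(N : ℤ)) N := by
  unfold nrm at hv
  rw [Finset.mem_product, Finset.mem_Icc, Finset.mem_Icc]
  omega

lemma cut_support {N : ℕ} (hN : 0 < har N) : (Function.support (cut N)).Finite := by
  refine (Finset.finite_toSet (Finset.Icc (-(N : ℤ)) N ×ˢ Finset.Icc (-(N : ℤ)) N)).subset
    fun v hv => ?_
  apply mem_box
  by_contra h
  exact hv (cut_eq_zero hN (by omega))

lemma cut_diff {N : ℕ} (hN : 0 < har N) (x : (ℤ × ℤ) × ZMod 6) :
    (cut N (tip x) - cut N x.1) ^ 2 ≤ 1 / ((max (nrm x.1) 1 : ℕ) : ℝ) ^ 2 / har N ^ 2 := by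
  have h1 : |cut N (tip x) - cut N x.1| ≤ |har (nrm (tip x)) - har (nrm x.1)| / har N := by
    unfold cut
    rw [max_comm 0, max_comm 0]
    refine (abs_max_sub_max_le_abs _ _ _).trans (le_of_eq ?_)
    rw [← abs_of_pos hN, ← abs_div, abs_of_pos hN, ← abs_neg]
    congr 1
    ring
  have hm : (0 : ℝ) < ((max (nrm x.1) 1 : ℕ) : ℝ) := by
    exact_mod_cast lt_of_lt_of_le one_pos (le_max_right _ _)
  have h2 : |har (nrm (tip x)) - har (nrm x.1)| ≤ 1 / ((max (nrm x.1) 1 : ℕ) : ℝ) := by
    obtain ⟨h3, h4⟩ := nrm_tip x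
    have hcase : nrm (tip x) = nrm x.1 ∨ nrm (tip x) = nrm x.1 + 1 ∨
        nrm x.1 = nrm (tip x) + 1 := by omega
    rcases hcase with h | h | h
    · rw [h, sub_self, abs_zero]
      positivity
    · rw [h, har_succ, add_sub_cancel_left, abs_of_pos (by positivity)]
      apply one_div_le_one_div_of_le hm
      have : max (nrm x.1) 1 ≤ nrm x.1 + 1 := by omega
      exact_mod_cast this
    · rw [show max (nrm x.1) 1 = nrm (tip x) + 1 by omega, h, har_succ, sub_add_cancel_left,
        abs_neg, abs_of_pos (by positivity)]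
      push_cast
      exact le_rfl
  rw [← sq_abs, ← one_div_pow, ← div_pow]
  exact pow_le_pow_left₀ (abs_nonneg _) (h1.trans (div_le_div_of_nonneg_right h2 hN.le)) 2

lemma card_sphere (N k : ℕ) :
    ((Finset.Icc (-(N : ℤ)) N ×ˢ Finset.Icc (-(N : ℤ)) N).filter fun v => nrm v = k).card ≤
      12 * max k 1 := by
  have h1 : (Finset.Icc (-(N : ℤ)) N ×ˢ Finset.Icc (-(N : ℤ)) N).filter (fun v => nrm v = k) ⊆
      (({(k : ℤ), -(k : ℤ)} : Finset ℤ) ×ˢ Finset.Icc (-(k : ℤ)) k) ∪
      (Finset.Icc (-(k : ℤ)) k ×ˢ ({(k : ℤ), -(k : ℤ)} : Finset ℤ)) := by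
    intro v hv
    have h2 := (Finset.mem_filter.1 hv).2
    unfold nrm at h2
    simp only [Finset.mem_union, Finset.mem_product, Finset.mem_insert, Finset.mem_singleton,
      Finset.mem_Icc]
    omega
  refine (Finset.card_le_card h1).trans ((Finset.card_union_le _ _).trans ?_)
  rw [Finset.card_product, Finset.card_product, Int.card_Icc]
  have h2 : ({(k : ℤ), -(k : ℤ)} : Finset ℤ).card ≤ 2 := Finset.card_le_two
  have h3 : ((k : ℤ) + 1 - -(k : ℤ)).toNat = 2 * k + 1 := by omega
  rw [h3]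
  have h4 : ({(k : ℤ), -(k : ℤ)} : Finset ℤ).card * (2 * k + 1) ≤ 2 * (2 * k + 1) :=
    Nat.mul_le_mul_right _ h2
  have h5 : (2 * k + 1) * ({(k : ℤ), -(k : ℤ)} : Finset ℤ).card ≤ (2 * k + 1) * 2 :=
    Nat.mul_le_mul_left _ h2
  omega

lemma cut_energy {N : ℕ} (hN : 0 < har N) :
    ∑' x : (ℤ × ℤ) × ZMod 6, (cut N (tip x) - cut N x.1) ^ 2 ≤
      72 * (1 + har N) / har N ^ 2 := by
  classical
  set B := Finset.Icc (-(N : ℤ)) N ×ˢ Finset.Icc (-(N : ℤ)) N with hB
  rw [tsum_eq_sum (s := B ×ˢ Finset.univ)]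
  · have h1 : ∀ x ∈ B ×ˢ (Finset.univ : Finset (ZMod 6)), (cut N (tip x) - cut N x.1) ^ 2 ≤
        1 / ((max (nrm x.1) 1 : ℕ) : ℝ) ^ 2 / har N ^ 2 := fun x _ => cut_diff hN x
    refine (Finset.sum_le_sum h1).trans ?_
    rw [Finset.sum_product]
    simp only [Finset.sum_const, Finset.card_univ, ZMod.card, nsmul_eq_mul]
    rw [← Finset.mul_sum, ← Finset.sum_div, ← mul_div_assoc]
    apply div_le_div_of_nonneg_right _ (by positivity)
    have h2 : ∑ v ∈ B, 1 / ((max (nrm v) 1 : ℕ) : ℝ) ^ 2 =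
        ∑ k ∈ Finset.range (N + 1), ∑ v ∈ B.filter (fun v => nrm v = k),
          1 / ((max (nrm v) 1 : ℕ) : ℝ) ^ 2 := by
      rw [Finset.sum_fiberwise_of_maps_to]
      intro v hv
      rw [hB, Finset.mem_product, Finset.mem_Icc, Finset.mem_Icc] at hv
      rw [Finset.mem_range]
      unfold nrm
      omega
    have h3 : ∀ k ∈ Finset.range (N + 1), ∑ v ∈ B.filter (fun v => nrm v = k),
        1 / ((max (nrm v) 1 : ℕ) : ℝ) ^ 2 ≤ 12 * (1 / ((max k 1 : ℕ) : ℝ)) := by
      intro k _
      have hm : (0 : ℝ) < ((max k 1 : ℕ) : ℝ) := by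
        exact_mod_cast lt_of_lt_of_le one_pos (le_max_right _ _)
      have h4 : ∑ v ∈ B.filter (fun v => nrm v = k), 1 / ((max (nrm v) 1 : ℕ) : ℝ) ^ 2 =
          ∑ v ∈ B.filter (fun v => nrm v = k), 1 / ((max k 1 : ℕ) : ℝ) ^ 2 :=
        Finset.sum_congr rfl fun v hv => by rw [(Finset.mem_filter.1 hv).2]
      rw [h4, Finset.sum_const, nsmul_eq_mul]
      have h5 : (((B.filter fun v => nrm v = k).card : ℕ) : ℝ) ≤ 12 * ((max k 1 : ℕ) : ℝ) := by
        exact_mod_cast card_sphere N k
      calc _ ≤ 12 * ((max k 1 : ℕ) : ℝ) * (1 / ((max k 1 : ℕ) : ℝ) ^ 2) :=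
            mul_le_mul_of_nonneg_right h5 (by positivity)
        _ = _ := by field_simp
    rw [h2]
    have h6 : ∑ k ∈ Finset.range (N + 1), 12 * (1 / ((max k 1 : ℕ) : ℝ)) = 12 * (1 + har N) := by
      rw [← Finset.mul_sum, Finset.sum_range_succ']
      unfold har
      rw [add_comm]
      congr 2
      · simp
      · refine Finset.sum_congr rfl fun i _ => ?_
        rw [max_eq_left (by omega)]
        push_cast
        rfl
    have h7 := (Finset.sum_le_sum h3).trans h6.le
    calc ((6 : ℕ) : ℝ) * _ ≤ ((6 : ℕ) : ℝ) * (12 * (1 + har N)) :=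
          mul_le_mul_of_nonneg_left h7 (by positivity)
      _ = _ := by push_cast; ring
  · intro x hx
    have hx' : ¬ nrm x.1 ≤ N := fun h => hx (by
      rw [Finset.mem_product]
      exact ⟨mem_box h, Finset.mem_univ _⟩)
    have h1 := nrm_tip x
    rw [cut_eq_zero hN (v := tip x) (by omega), cut_eq_zero hN (v := x.1) (by omega)]
    ring

end Cutoff

section Liouville

lemma liouville {φ : ℤ × ℤ → ℝ} {K c₁ C₁ : ℝ} (hφ : ∀ v, |φ v| ≤ K) (hc0 : 0 < c₁)
    (H : ∀ η : ℤ × ℤ → ℝ, (Function.support η).Finite → ∃ c : (ℤ × ℤ) × ZMod 6 → ℝ,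
      (∀ x, c (rev x) = c x) ∧ (∀ x, c₁ ≤ c x) ∧ (∀ x, c x ≤ C₁) ∧
      ∑' x, c x * (η x.1 ^ 2 * φ x.1) * (φ (tip x) - φ x.1) = 0) (x₀ : (ℤ × ℤ) × ZMod 6) :
    φ (tip x₀) = φ x₀.1 := by
  have hC1 : 0 < C₁ := by
    obtain ⟨c, _, h1, h2, _⟩ := H 0 (by simp)
    exact hc0.trans_le ((h1 x₀).trans (h2 x₀))
  have h1 : ∀ᶠ N in Filter.atTop, c₁ * (cut N x₀.1 ^ 2 * (φ (tip x₀) - φ x₀.1) ^ 2) ≤
      8 * K ^ 2 * C₁ * (72 * (1 + har N) / har N ^ 2) := by
    filter_upwards [har_tendsto.eventually_gt_atTop 0] with N hN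
    obtain ⟨c, hc, h2, h3, h4⟩ := H (cut N) (cut_support hN)
    refine (caccioppoli hc h2 h3 hc0 hφ (cut_support hN) h4 x₀).trans ?_
    exact mul_le_mul_of_nonneg_left (cut_energy hN) (by positivity)
  have hinv : Filter.Tendsto (fun N => (har N)⁻¹) Filter.atTop (nhds 0) :=
    Filter.Tendsto.comp tendsto_inv_atTop_zero har_tendsto
  have h2 : Filter.Tendsto (fun N => c₁ * (cut N x₀.1 ^ 2 * (φ (tip x₀) - φ x₀.1) ^ 2))
      Filter.atTop (nhds (c₁ * ((max 0 (1 - har (nrm x₀.1) * 0)) ^ 2 *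
        (φ (tip x₀) - φ x₀.1) ^ 2))) := by
    unfold cut
    simp only [div_eq_mul_inv]
    exact (((tendsto_const_nhds.max ((hinv.const_mul _).const_sub 1)).pow 2).mul_const _).const_mul _
  have h3 : Filter.Tendsto (fun N => 8 * K ^ 2 * C₁ * (72 * (1 + har N) / har N ^ 2))
      Filter.atTop (nhds (8 * K ^ 2 * C₁ * (72 * (0 ^ 2 + 0)))) := by
    have h4 : Filter.Tendsto (fun N => 8 * K ^ 2 * C₁ * (72 * ((har N)⁻¹ ^ 2 + (har N)⁻¹)))
      Filter.atTop (nhds (8 * K ^ 2 * C₁ * (72 * (0 ^ 2 + 0)))) :=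
      (((hinv.pow 2).add hinv).const_mul _).const_mul _
    refine h4.congr' ?_
    filter_upwards [har_tendsto.eventually_gt_atTop 0] with N hN
    field_simp
  have h4 := le_of_tendsto_of_tendsto h2 h3 h1
  simp only [mul_zero, sub_zero] at h4
  norm_num at h4
  have h5 : c₁ * (φ (tip x₀) - φ x₀.1) ^ 2 ≤ 0 := by linarith
  have h6 : (φ (tip x₀) - φ x₀.1) ^ 2 ≤ 0 := by
    by_contra h
    push Not at h
    nlinarith
  have h7 : φ (tip x₀) - φ x₀.1 = 0 := by
    have := le_antisymm h6 (sq_nonneg _)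
    exact pow_eq_zero_iff (two_ne_zero) |>.1 this
  linarith

end Liouville


section Main

variable {R : ℤ × ℤ → ℝ}

/-- A packing label with bounded ratios of the radii of adjacent circles: the ratio of the radii of
translates is constant. -/
lemma translate (h : IsPackingLabel R) {k : ℝ} (hk : 0 < k) (hk1 : k ≤ 1)
    (hb : ∀ v j, k * R v ≤ R (v + dir j)) (i : ZMod 6) (x₀ : (ℤ × ℤ) × ZMod 6) :
    R (tip x₀ + dir i) / R (tip x₀) = R (x₀.1 + dir i) / R x₀.1 := by
  have hpos := h.pos
  have hb' : ∀ v j, k * R (v + dir j) ≤ R v := by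
    intro v j
    have := hb (v + dir j) (j + 3)
    rwa [dir_add_three, add_neg_cancel_right] at this
  set u : ℤ × ℤ → ℝ := fun v => Real.log (R v) with hu
  set φ : ℤ × ℤ → ℝ := fun v => u (v + dir i) - u v with hφd
  have hexp : ∀ v, Real.exp (u v) = R v := fun v => Real.exp_log (hpos v)
  have hexp1 : ∀ v, Real.exp (u v + 1 * φ v) = R (v + dir i) := fun v => by
    have : u v + 1 * φ v = u (v + dir i) := by simp only [hφd]; ring
    rw [this, hexp]
  have hK : ∀ v j, |u (v + dir j) - u v| ≤ -Real.log k := by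
    intro v j
    have h1 := Real.log_le_log (by have := hpos v; positivity) (hb v j)
    have h2 := Real.log_le_log (by have := hpos (v + dir j); positivity) (hb' v j)
    rw [Real.log_mul hk.ne' (hpos _).ne'] at h1 h2
    rw [abs_le]
    simp only [hu]
    constructor <;> linarith
  have hφ : ∀ v, |φ v| ≤ -Real.log k := fun v => hK v i
  -- the interpolated radii
  have hr : ∀ (t : ℝ), 0 ≤ t → t ≤ 1 → ∀ v j, k * Real.exp (u v + t * φ v) ≤
      Real.exp (u (v + dir j) + t * φ (v + dir j)) := by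
    intro t ht0 ht1 v j
    rw [← Real.exp_log hk, ← Real.exp_add, Real.exp_le_exp]
    have h1 := (abs_le.1 (hK v j)).1
    have h2 := (abs_le.1 (hK (v + dir i) j)).1
    have h3 : v + dir i + dir j = v + dir j + dir i := by abel
    rw [h3] at h2
    simp only [hφd]
    nlinarith
  have hr' : ∀ (t : ℝ), 0 ≤ t → t ≤ 1 → ∀ v j, k * Real.exp (u (v + dir j) + t * φ (v + dir j)) ≤
      Real.exp (u v + t * φ v) := by
    intro t ht0 ht1 v j
    have := hr t ht0 ht1 (v + dir j) (j + 3)
    rwa [dir_add_three, add_neg_cancel_right] at this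
  have key : φ (tip x₀) = φ x₀.1 := by
    refine liouville (c₁ := k ^ 3 / 4) (C₁ := 2) hφ (by positivity) ?_ x₀
    intro η hη
    classical
    set ψ : ℤ × ℤ → ℝ := fun v => η v ^ 2 * φ v with hψ
    set S : Finset (ℤ × ℤ) := hη.toFinset with hS
    set F : ℝ → ℝ := fun t => ∑ v ∈ S, ψ v * ∑ j : ZMod 6, angle (Real.exp (u v + t * φ v))
      (Real.exp (u (v + dir j) + t * φ (v + dir j)))
      (Real.exp (u (v + dir (j + 1)) + t * φ (v + dir (j + 1)))) with hF
    set r : ℝ → ℤ × ℤ → ℝ := fun t v => Real.exp (u v + t * φ v) with hrd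
    have hrpos : ∀ t v, 0 < r t v := fun t v => Real.exp_pos _
    set F' : ℝ → ℝ := fun t => ∑ v ∈ S, ψ v * ∑ j : ZMod 6,
      (rho (r t v) (r t (v + dir j)) (r t (v + dir (j + 1))) / (r t v + r t (v + dir j)) *
        (φ (v + dir j) - φ v) +
      rho (r t v) (r t (v + dir j)) (r t (v + dir (j + 1))) / (r t v + r t (v + dir (j + 1))) *
        (φ (v + dir (j + 1)) - φ v)) with hF'
    have hder : ∀ t, HasDerivAt F (F' t) t := by
      intro t
      have h1 : HasDerivAt (fun t => ∑ v ∈ S, ψ v * ∑ j : ZMod 6,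
          angle (Real.exp (u v + t * φ v)) (Real.exp (u (v + dir j) + t * φ (v + dir j)))
          (Real.exp (u (v + dir (j + 1)) + t * φ (v + dir (j + 1))))) (F' t) t := by
        refine HasDerivAt.fun_sum fun v _ => HasDerivAt.const_mul _ ?_
        refine HasDerivAt.fun_sum fun j _ => ?_
        exact hasDerivAt_angle (u v) (u (v + dir j)) (u (v + dir (j + 1))) (φ v)
          (φ (v + dir j)) (φ (v + dir (j + 1))) t
      exact h1
    have hF0 : F 0 = F 1 := by
      have h1 : F 0 = ∑ v ∈ S, ψ v * (2 * Real.pi) := by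
        simp only [hF]
        refine Finset.sum_congr rfl fun v _ => ?_
        rw [← h.angleSum_eq v]
        unfold angleSum
        simp only [zero_mul, add_zero, hexp]
      have h2 : F 1 = ∑ v ∈ S, ψ v * (2 * Real.pi) := by
        simp only [hF]
        refine Finset.sum_congr rfl fun v _ => ?_
        rw [← h.angleSum_eq (v + dir i)]
        unfold angleSum
        have h3 : ∀ j, v + dir i + dir j = v + dir j + dir i := fun j => by abel
        simp only [hexp1, h3]
      rw [h1, h2]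
    obtain ⟨t, ⟨ht0, ht1⟩, ht⟩ := exists_hasDerivAt_eq_zero (f := F) (f' := F') one_pos
      (fun t _ => (hder t).continuousAt.continuousWithinAt) hF0 fun t _ => hder t
    refine ⟨fun x => (rho (r t x.1) (r t (x.1 + dir x.2)) (r t (x.1 + dir (x.2 + 1))) +
      rho (r t x.1) (r t (x.1 + dir (x.2 - 1))) (r t (x.1 + dir x.2))) /
        (r t x.1 + r t (x.1 + dir x.2)), ?_, ?_, ?_, ?_⟩
    · rintro ⟨v, j⟩
      have e1 : v + dir j + dir (j + 3) = v := by rw [dir_add_three, add_neg_cancel_right]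
      have e2 : v + dir j + dir (j + 3 + 1) = v + dir (j - 1) := by
        rw [add_assoc v, show j + 3 + 1 = j + 4 by ring, dir_add_four]
      have e3 : v + dir j + dir (j + 3 - 1) = v + dir (j + 1) := by
        rw [add_assoc v, show j + 3 - 1 = j + 2 by ring, dir_add_two]
      simp only [rev, Equiv.coe_fn_mk, e1, e2, e3]
      rw [add_comm (r t (v + dir j)) (r t v),
        rho_swap (r t (v + dir j)) (r t v) (r t (v + dir (j - 1))),
        rho_swap' (r t v) (r t (v + dir j)) (r t (v + dir (j - 1))),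
        rho_swap' (r t (v + dir j)) (r t (v + dir (j + 1))) (r t v),
        rho_swap (r t (v + dir j)) (r t v) (r t (v + dir (j + 1))), add_comm]
    · rintro ⟨v, j⟩
      have h1 := le_rho_div (hrpos t v) (hrpos t (v + dir j)) (hrpos t (v + dir (j + 1))) hk hk1
        (hr t ht0.le ht1.le v j) (hr' t ht0.le ht1.le v j) (hr t ht0.le ht1.le v (j + 1))
        (hr' t ht0.le ht1.le v (j + 1))
      refine h1.trans ?_
      have h2 := hrpos t v
      have h3 := hrpos t (v + dir j)
      apply div_le_div_of_nonneg_right _ (by positivity)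
      have : 0 ≤ rho (r t v) (r t (v + dir (j - 1))) (r t (v + dir j)) := Real.sqrt_nonneg _
      linarith
    · rintro ⟨v, j⟩
      have h1 := rho_div_le (hrpos t v) (hrpos t (v + dir j)) (hrpos t (v + dir (j + 1)))
      have h2 := rho_div_le (hrpos t v) (hrpos t (v + dir j)) (hrpos t (v + dir (j - 1)))
      rw [rho_swap'] at h2
      show (rho (r t v) (r t (v + dir j)) (r t (v + dir (j + 1))) +
        rho (r t v) (r t (v + dir (j - 1))) (r t (v + dir j))) / (r t v + r t (v + dir j)) ≤ 2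
      rw [add_div]
      linarith
    · rw [tsum_eq_sum (s := S ×ˢ Finset.univ), Finset.sum_product, ← ht]
      · simp only [hF']
        refine Finset.sum_congr rfl fun v _ => ?_
        rw [Finset.sum_add_distrib]
        have h4 : ∑ j : ZMod 6, rho (r t v) (r t (v + dir j)) (r t (v + dir (j + 1))) /
            (r t v + r t (v + dir (j + 1))) * (φ (v + dir (j + 1)) - φ v) =
            ∑ j : ZMod 6, rho (r t v) (r t (v + dir (j - 1))) (r t (v + dir j)) /
            (r t v + r t (v + dir j)) * (φ (v + dir j) - φ v) := by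
          symm
          rw [← Equiv.sum_comp (Equiv.addRight (1 : ZMod 6))]
          refine Finset.sum_congr rfl fun j _ => ?_
          simp only [Equiv.coe_addRight, add_sub_cancel_right]
        rw [h4, ← Finset.sum_add_distrib, Finset.mul_sum]
        refine Finset.sum_congr rfl fun j _ => ?_
        simp only [tip, hψ]
        ring
      · rintro ⟨v, j⟩ hx
        have h5 : η v = 0 := by
          by_contra h6
          apply hx
          rw [Finset.mem_product]
          exact ⟨by rw [hS, Set.Finite.mem_toFinset]; exact h6, Finset.mem_univ _⟩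
        simp only [h5]
        ring
  have e1 : R (tip x₀ + dir i) / R (tip x₀) = Real.exp (φ (tip x₀)) := by
    simp only [hφd]
    rw [Real.exp_sub, hexp, hexp]
  have e2 : R (x₀.1 + dir i) / R x₀.1 = Real.exp (φ x₀.1) := by
    simp only [hφd]
    rw [Real.exp_sub, hexp, hexp]
  rw [e1, e2, key]

lemma const_of_edges {f : ℤ × ℤ → ℝ} (hf : ∀ v j, f (v + dir j) = f v) (n m : ℤ) :
    f (n, m) = f (0, 0) := by
  have h0 : ∀ n m, f (n + 1, m) = f (n, m) := fun n m => by
    have := hf (n, m) 0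
    rwa [show dir 0 = ((1 : ℤ), (0 : ℤ)) from rfl, Prod.mk_add_mk, add_zero] at this
  have h1 : ∀ n m, f (n, m + 1) = f (n, m) := fun n m => by
    have := hf (n, m) 1
    rwa [show dir 1 = ((0 : ℤ), (1 : ℤ)) from rfl, Prod.mk_add_mk, add_zero] at this
  have h2 : ∀ m, f (n, m) = f (0, m) := fun m => by
    induction n using Int.induction_on with
    | zero => rfl
    | succ n ih => rw [h0, ih]
    | pred n ih => rw [← ih, ← h0, sub_add_cancel]
  rw [h2]
  induction m using Int.induction_on with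
  | zero => rfl
  | succ n ih => rw [h1, ih]
  | pred n ih => rw [← ih, ← h1, sub_add_cancel]

/-- Every packing label for which the ratios of the radii of adjacent circles are bounded is of the
form `c a ^ n b ^ m`. -/
theorem of_bounded (h : IsPackingLabel R) {k : ℝ} (hk : 0 < k) (hk1 : k ≤ 1)
    (hb : ∀ v j, k * R v ≤ R (v + dir j)) :
    ∃ a b c : ℝ, 0 < a ∧ 0 < b ∧ 0 < c ∧ ∀ n m : ℤ, R (n, m) = c * a ^ n * b ^ m := by
  have hpos := h.pos
  have hc : ∀ i : ZMod 6, ∀ n m : ℤ, R ((n, m) + dir i) / R (n, m) = R ((0, 0) + dir i) / R (0, 0) :=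
    fun i n m => const_of_edges (f := fun v => R (v + dir i) / R v)
      (fun v j => translate h hk hk1 hb i (v, j)) n m
  set a := R ((0, 0) + dir 0) / R (0, 0) with ha
  set b := R ((0, 0) + dir 1) / R (0, 0) with hbd
  have ha0 : 0 < a := div_pos (hpos _) (hpos _)
  have hb0 : 0 < b := div_pos (hpos _) (hpos _)
  have h0 : ∀ n m, R (n + 1, m) = R (n, m) * a := fun n m => by
    have := hc 0 n m
    rw [show dir 0 = ((1 : ℤ), (0 : ℤ)) from rfl, Prod.mk_add_mk, add_zero,
      div_eq_iff (hpos _).ne'] at this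
    rw [this, ha, show dir 0 = ((1 : ℤ), (0 : ℤ)) from rfl]
    ring
  have h1 : ∀ n m, R (n, m + 1) = R (n, m) * b := fun n m => by
    have := hc 1 n m
    rw [show dir 1 = ((0 : ℤ), (1 : ℤ)) from rfl, Prod.mk_add_mk, add_zero,
      div_eq_iff (hpos _).ne'] at this
    rw [this, hbd, show dir 1 = ((0 : ℤ), (1 : ℤ)) from rfl]
    ring
  refine ⟨a, b, R (0, 0), ha0, hb0, hpos _, fun n m => ?_⟩
  have h2 : ∀ n : ℤ, R (n, 0) = R (0, 0) * a ^ n := fun n => by
    induction n using Int.induction_on with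
    | zero => simp
    | succ n ih => rw [h0, ih, zpow_add_one₀ ha0.ne', mul_assoc]
    | pred n ih =>
      have h3 := h0 (-(n : ℤ) - 1) 0
      rw [sub_add_cancel, ih] at h3
      rw [zpow_sub_one₀ ha0.ne', ← mul_assoc, h3]
      field_simp
  rw [← h2]
  induction m using Int.induction_on with
  | zero => simp
  | succ m ih => rw [h1, ih, zpow_add_one₀ hb0.ne', mul_assoc]
  | pred m ih =>
    have h3 := h1 n (-(m : ℤ) - 1)
    rw [sub_add_cancel, ih] at h3
    rw [zpow_sub_one₀ hb0.ne', ← mul_assoc, h3]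
    field_simp

end Main

/-- **The answer to Doyle's question.** Every locally univalent circle packing for the hexagonal
complex is a regular hexagonal packing or a Doyle spiral. -/
theorem result (R : ℤ × ℤ → ℝ) (z : ℤ × ℤ → ℂ) (h : IsCirclePacking R z)
    (hu : LocallyUnivalent R z) :
    ∃ a b c : ℝ, 0 < a ∧ 0 < b ∧ 0 < c ∧ ∀ n m : ℤ, R (n, m) = c * a ^ n * b ^ m :=
  of_bounded h.label (k := (1 / (5 * 10 ^ 19)) ^ 2) (by positivity)
    (pow_le_one₀ (by positivity) (by norm_num)) fun v j => petal_bound h hu v j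


end Pool.Agent.Results.MP_5725d1_gt.DoyleQuestion
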